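import Pool.Agent.H848R3.RI.Net

set_option autoImplicit false
open Topology Filter Set MeasureTheory

namespace Pool.Agent.H848R3.RI

noncomputable section

variable {N : Network} {V : N.SType → Type} [∀ τ, NormedAddCommGroup (V τ)]
  [∀ τ, NormedSpace ℝ (V τ)]

/-- Smooth admissible maps: for every node `c` there is a smooth function `F c` of the state of a
node and of the states at the tails of its input arrows such that the component `d` of `h`, for
every node `d` and every input isomorphism `β : I(c) → I(d)`, is `F c`, evaluated at the state of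
`d` and at the states at the tails of the arrows `β(e)`, `e` in `I(c)`. -/
def SmAdm (h : Ph N V → Ph N V) : Prop :=
  ∃ F : ∀ c : N.Node, Tup N V c → V (N.sp c), (∀ c, ContDiff ℝ (⊤ : ℕ∞) (F c)) ∧
    ∀ (c d : N.Node) (β : InputIso N c d) (z : Ph N V), h z d = cst β.spq (F c (tup V β z))

lemma SmAdm.add {g h : Ph N V → Ph N V} (hg : SmAdm g) (hh : SmAdm h) :
    SmAdm (fun z => g z + h z) := by
  obtain ⟨F, hF, hF2⟩ := hg
  obtain ⟨G, hG, hG2⟩ := hh
  refine ⟨fun c Y => F c Y + G c Y, fun c => (hF c).add (hG c), fun c d β z => ?_⟩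
  change g z d + h z d = cst β.spq (F c (tup V β z) + G c (tup V β z))
  rw [hF2 c d β z, hG2 c d β z, map_add]

lemma SmAdm.smul {g : Ph N V → Ph N V} (hg : SmAdm g) (r : ℝ) :
    SmAdm (fun z => r • g z) := by
  obtain ⟨F, hF, hF2⟩ := hg
  refine ⟨fun c Y => r • F c Y, fun c => (hF c).const_smul r, fun c d β z => ?_⟩
  change r • g z d = cst β.spq (r • F c (tup V β z))
  rw [hF2 c d β z, map_smul]

lemma SmAdm.zero : SmAdm (fun _ : Ph N V => (0 : Ph N V)) :=
  ⟨fun _ _ => 0, fun _ => contDiff_const, fun c d β z => by rw [map_zero]; rfl⟩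

lemma SmAdm.comp {h : Ph N V → Ph N V} (hh : SmAdm h) (c d : N.Node) (β : InputIso N c d)
    (x y : Ph N V) (h1 : st x c = st y d)
    (h2 : ∀ e : N.In c, st x (N.tail e.1) = st y (N.tail (β.toEquiv e).1)) :
    st (h x) c = st (h y) d := by
  obtain ⟨F, hF, hF2⟩ := hh
  rw [st_of β.spq, hF2 c c (InputIso.refl c) x, hF2 c d β y, cst_cst]
  have h3 : tup V (InputIso.refl c) x = tup V β y := by
    rw [tup_eq_iff]
    exact ⟨h1, h2⟩
  rw [h3]

/-- relabelling of tuples along an input isomorphism -/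
def pullT (V : N.SType → Type) [∀ τ, NormedAddCommGroup (V τ)] [∀ τ, NormedSpace ℝ (V τ)]
    {c c' : N.Node} (β : InputIso N c c') : Tup N V c' →L[ℝ] Tup N V c :=
  ((cst β.spq.symm).comp (ContinuousLinearMap.fst ℝ _ _)).prod
    (ContinuousLinearMap.pi fun e =>
      (cst (β.tailType e)).comp ((ContinuousLinearMap.proj (β.toEquiv e)).comp
        (ContinuousLinearMap.snd ℝ _ _)))

lemma pullT_tup {c c' d : N.Node} (β : InputIso N c c') (γ : InputIso N c' d) (z : Ph N V) :
    tup V (β.trans γ) z = pullT V β (tup V γ z) := by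
  have h1 : (tup V (β.trans γ) z).1 = (pullT V β (tup V γ z)).1 := by
    change cst (β.trans γ).spq.symm (z d) = cst β.spq.symm (cst γ.spq.symm (z d))
    rw [cst_cst]
  have h2 : (tup V (β.trans γ) z).2 = (pullT V β (tup V γ z)).2 := by
    funext e
    change cst ((β.trans γ).tailType e) (z (N.tail ((β.trans γ).toEquiv e).1)) =
      cst (β.tailType e) (cst (γ.tailType (β.toEquiv e)) (z (N.tail (γ.toEquiv
        (β.toEquiv e)).1)))
    rw [cst_cst]
    rfl
  exact Prod.ext h1 h2

/-- admissible perturbations -/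
structure Pert (g : Ph N V → Ph N V) : Prop where
  sm : SmAdm g
  smooth : ContDiff ℝ 1 g
  lip : ∃ K : NNReal, LipschitzWith K g
  bdd : ∃ B : NNReal, ∀ z, ‖g z‖ ≤ B
  comp : ∀ (c d : N.Node) (β : InputIso N c d) (x y : Ph N V), st x c = st y d →
    (∀ e : N.In c, st x (N.tail e.1) = st y (N.tail (β.toEquiv e).1)) → st (g x) c = st (g y) d

lemma Admissible.add_smul {f g : Ph N V → Ph N V} (hf : Admissible f) (hg : Pert g) (ε : ℝ) :
    Admissible (fun z => f z + ε • g z) := by
  refine ⟨hf.smooth.add (hg.smooth.const_smul ε), fun c d β x y h1 h2 => ?_⟩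
  have a1 := (st_of β.spq).1 (hf.comp c d β x y h1 h2)
  have a2 := (st_of β.spq).1 (hg.comp c d β x y h1 h2)
  rw [st_of β.spq]
  simp only [Pi.add_apply, Pi.smul_apply, map_add, map_smul, a1, a2]

lemma pert_zero : Pert (fun _ : Ph N V => (0 : Ph N V)) := by
  refine ⟨SmAdm.zero, contDiff_const, ⟨0, LipschitzWith.const _⟩, ⟨0, fun z => by simp⟩, ?_⟩
  intro c d β x y _ _
  rw [st_of β.spq]
  simp

/-- the bump perturbation -/
def bump (c : N.Node) (Y : Tup N V c) (ψ : Tup N V c → ℝ) (w : V (N.sp c)) :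
    Ph N V → Ph N V :=
  fun z c' => ∑ β : InputIso N c c', ψ (tup V β z - Y) • cst β.spq w

lemma bump_sm (c : N.Node) (Y : Tup N V c) {ψ : Tup N V c → ℝ} (h1 : ContDiff ℝ (⊤ : ℕ∞) ψ)
    (w : V (N.sp c)) : SmAdm (bump c Y ψ w) := by
  refine ⟨fun c' Y' => ∑ β : InputIso N c c', ψ (pullT V β Y' - Y) • cst β.spq w, ?_, ?_⟩
  · intro c'
    refine ContDiff.sum fun β _ => ?_
    have h5 : ContDiff ℝ (⊤ : ℕ∞) (fun Y' : Tup N V c' => pullT V β Y' - Y) :=
      (pullT V β).contDiff.sub contDiff_const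
    exact (h1.comp h5).smul contDiff_const
  · intro c' d' γ z
    unfold bump
    rw [map_sum, ← Equiv.sum_comp (InputIso.transEquiv (c := c) γ)]
    refine Finset.sum_congr rfl fun β _ => ?_
    rw [map_smul, cst_cst]
    have h4 : tup V (InputIso.transEquiv γ β) z = pullT V β (tup V γ z) := pullT_tup β γ z
    rw [h4]

lemma bump_pert (c : N.Node) (Y : Tup N V c) {ψ : Tup N V c → ℝ}
    (h1' : ContDiff ℝ (⊤ : ℕ∞) ψ)
    (h2 : ∃ K : NNReal, LipschitzWith K ψ) (h3 : ∀ v, |ψ v| ≤ 1) (w : V (N.sp c)) :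
    Pert (bump c Y ψ w) := by
  obtain ⟨K, hK⟩ := h2
  have h1 : ContDiff ℝ 1 ψ := h1'.of_le (by exact_mod_cast le_top)
  refine ⟨bump_sm c Y h1' w, ?_, ?_, ?_, ?_⟩
  · rw [contDiff_pi]
    intro c'
    unfold bump
    refine ContDiff.sum fun β _ => ?_
    have h5 : ContDiff ℝ 1 (fun z : Ph N V => tup V β z - Y) :=
      (tup V β).contDiff.sub contDiff_const
    exact (h1.comp h5).smul contDiff_const
  · -- Lipschitz
    have hl : ∀ c' (β : InputIso N c c'), ∃ L : NNReal,
        LipschitzWith L (fun z : Ph N V => ψ (tup V β z - Y) • cst β.spq w) := by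
      intro c' β
      refine ⟨K * ‖(tup V β : Ph N V →L[ℝ] Tup N V c)‖₊ * ‖w‖₊,
        LipschitzWith.of_dist_le_mul fun z z' => ?_⟩
      rw [dist_eq_norm, ← sub_smul, norm_smul, norm_cst, ← dist_eq_norm]
      have e1 := hK.dist_le_mul (tup V β z - Y) (tup V β z' - Y)
      have e2 : dist (tup V β z - Y) (tup V β z' - Y) ≤ ‖(tup V β : Ph N V →L[ℝ] Tup N V c)‖ *
          dist z z' := by
        rw [dist_eq_norm, sub_sub_sub_cancel_right, ← map_sub, dist_eq_norm]
        exact ContinuousLinearMap.le_opNorm _ _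
      push_cast
      calc dist (ψ (tup V β z - Y)) (ψ (tup V β z' - Y)) * ‖w‖
          ≤ (K * (‖(tup V β : Ph N V →L[ℝ] Tup N V c)‖ * dist z z')) * ‖w‖ := by
            refine mul_le_mul_of_nonneg_right (e1.trans ?_) (norm_nonneg _)
            exact mul_le_mul_of_nonneg_left e2 K.2
        _ = _ := by ring
    choose L hL using hl
    refine ⟨∑ c', ∑ β, L c' β, LipschitzWith.of_dist_le_mul fun z z' => ?_⟩
    rw [dist_pi_le_iff (by positivity)]
    intro c'
    have e1 : dist (bump c Y ψ w z c') (bump c Y ψ w z' c') ≤ ∑ β, L c' β * dist z z' := by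
      unfold bump
      rw [dist_eq_norm, ← Finset.sum_sub_distrib]
      refine (norm_sum_le _ _).trans (Finset.sum_le_sum fun β _ => ?_)
      rw [← dist_eq_norm]
      exact (hL c' β).dist_le_mul z z'
    refine e1.trans ?_
    rw [← Finset.sum_mul]
    refine mul_le_mul_of_nonneg_right ?_ dist_nonneg
    push_cast
    exact Finset.single_le_sum (f := fun c' => ∑ β, (L c' β : ℝ))
      (fun c' _ => Finset.sum_nonneg fun β _ => (L c' β).2) (Finset.mem_univ c')
  · refine ⟨∑ c' : N.Node, ∑ _β : InputIso N c c', ‖w‖₊, fun z => ?_⟩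
    rw [pi_norm_le_iff_of_nonneg (by positivity)]
    intro c'
    unfold bump
    have e1 : ‖∑ β : InputIso N c c', ψ (tup V β z - Y) • cst β.spq w‖ ≤
        ∑ _β : InputIso N c c', ‖w‖ := by
      refine (norm_sum_le _ _).trans (Finset.sum_le_sum fun β _ => ?_)
      rw [norm_smul, norm_cst, Real.norm_eq_abs]
      exact mul_le_of_le_one_left (norm_nonneg _) (h3 _)
    refine e1.trans ?_
    push_cast
    exact Finset.single_le_sum (f := fun c' => ∑ _β : InputIso N c c', ‖w‖)
      (fun c' _ => Finset.sum_nonneg fun β _ => norm_nonneg _) (Finset.mem_univ c')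
  · intro c' d' γ x y hx hy
    rw [st_of γ.spq]
    unfold bump
    rw [map_sum, ← Equiv.sum_comp (InputIso.transEquiv (c := c) γ)]
    refine Finset.sum_congr rfl fun β _ => ?_
    rw [map_smul, cst_cst]
    have h4 : tup V β x = tup V (InputIso.transEquiv γ β) y := by
      rw [tup_eq_iff]
      exact ⟨hx, fun e => hy (β.toEquiv e)⟩
    rw [h4]

/-- the uniform bound of the bumps -/
lemma bump_bound (c : N.Node) (Y : Tup N V c) {ψ : Tup N V c → ℝ} (h3 : ∀ v, |ψ v| ≤ 1)
    (w : V (N.sp c)) (z : Ph N V) :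
    ‖bump c Y ψ w z‖ ≤ ∑ c' : N.Node, ∑ _β : InputIso N c c', ‖w‖ := by
  rw [pi_norm_le_iff_of_nonneg (by positivity)]
  intro c'
  unfold bump
  have e1 : ‖∑ β : InputIso N c c', ψ (tup V β z - Y) • cst β.spq w‖ ≤
      ∑ _β : InputIso N c c', ‖w‖ := by
    refine (norm_sum_le _ _).trans (Finset.sum_le_sum fun β _ => ?_)
    rw [norm_smul, norm_cst, Real.norm_eq_abs]
    exact mul_le_of_le_one_left (norm_nonneg _) (h3 _)
  refine e1.trans ?_
  exact Finset.single_le_sum (f := fun c' => ∑ _β : InputIso N c c', ‖w‖)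
    (fun c' _ => Finset.sum_nonneg fun β _ => norm_nonneg _) (Finset.mem_univ c')

variable [∀ τ, FiniteDimensional ℝ (V τ)]

/-- the bump functions -/
def psiB (V : N.SType → Type) [∀ τ, NormedAddCommGroup (V τ)] [∀ τ, NormedSpace ℝ (V τ)]
    [∀ τ, FiniteDimensional ℝ (V τ)] (c : N.Node) (n : ℕ) : ContDiffBump (0 : Tup N V c) :=
  ⟨1 / ((n:ℝ) + 1) / 2, 1 / ((n:ℝ) + 1), by positivity, half_lt_self (by positivity)⟩

/-- the bump functions -/
def psi (V : N.SType → Type) [∀ τ, NormedAddCommGroup (V τ)] [∀ τ, NormedSpace ℝ (V τ)]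
    [∀ τ, FiniteDimensional ℝ (V τ)] (c : N.Node) (n : ℕ) : Tup N V c → ℝ := psiB V c n

lemma psi_zero (c : N.Node) (n : ℕ) : psi V c n 0 = 1 :=
  (psiB V c n).one_of_mem_closedBall (Metric.mem_closedBall_self (psiB V c n).rIn_pos.le)

lemma psi_far (c : N.Node) (n : ℕ) {v : Tup N V c} (h : 1 / ((n:ℝ) + 1) ≤ ‖v‖) :
    psi V c n v = 0 :=
  (psiB V c n).zero_of_le_dist (by rw [dist_zero_right]; exact h)

lemma psi_nonneg (c : N.Node) (n : ℕ) (v : Tup N V c) : 0 ≤ psi V c n v := (psiB V c n).nonneg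

lemma psi_abs (c : N.Node) (n : ℕ) (v : Tup N V c) : |psi V c n v| ≤ 1 := by
  rw [abs_of_nonneg (psi_nonneg c n v)]; exact (psiB V c n).le_one

lemma psi_pert (c : N.Node) (n : ℕ) (Y : Tup N V c) (w : V (N.sp c)) :
    Pert (bump c Y (psi V c n) w) := by
  refine bump_pert c Y (psiB V c n).contDiff ?_ (psi_abs c n) w
  obtain ⟨C, hC⟩ := ((psiB V c n).contDiff (n := 1)).lipschitzWith_of_hasCompactSupport
    (psiB V c n).hasCompactSupport one_ne_zero
  exact ⟨C, hC⟩

/-- the tuple value `Y` of `c` is attained by the input tuples of all nodes only on a null set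
of times -/
def NullHit (x : ℝ → Ph N V) (T : ℝ) (c : N.Node) (Y : Tup N V c) : Prop :=
  ∀ᵐ s : ℝ, s ∈ Set.uIoc 0 T → ∀ (c' : N.Node) (β : InputIso N c c'), tup V β (x s) ≠ Y

lemma bump_eventually_zero (c : N.Node) (Y : Tup N V c) (w : V (N.sp c)) (z : Ph N V)
    (d : N.Node) (h : ∀ β : InputIso N c d, tup V β z ≠ Y) :
    ∀ᶠ n : ℕ in atTop, bump c Y (psi V c n) w z d = 0 := by
  have h1 : ∀ β : InputIso N c d, ∀ᶠ n : ℕ in atTop, 1 / ((n:ℝ) + 1) ≤ ‖tup V β z - Y‖ := by
    intro β
    have h2 : 0 < ‖tup V β z - Y‖ := norm_pos_iff.2 (sub_ne_zero.2 (h β))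
    exact (tendsto_one_div_add_atTop_nhds_zero_nat.eventually (gt_mem_nhds h2)).mono
      fun n hn => hn.le
  filter_upwards [eventually_all.2 h1] with n hn
  unfold bump
  exact Finset.sum_eq_zero fun β _ => by rw [psi_far c n (hn β), zero_smul]

lemma integral_bump {x : ℝ → Ph N V} (hx : Continuous x) {T : ℝ} {c : N.Node}
    {Y : Tup N V c} (hn : NullHit x T c Y) (w : V (N.sp c)) :
    Tendsto (fun n : ℕ => ∫ s in (0:ℝ)..T, ‖bump c Y (psi V c n) w (x s)‖) atTop (𝓝 0) := by
  have h0 : ∫ s in (0:ℝ)..T, (0:ℝ) = 0 := by simp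
  suffices h : Tendsto (fun n : ℕ => ∫ s in (0:ℝ)..T, ‖bump c Y (psi V c n) w (x s)‖) atTop
      (𝓝 (∫ s in (0:ℝ)..T, (0:ℝ))) by rwa [h0] at h
  refine intervalIntegral.tendsto_integral_filter_of_dominated_convergence (l := atTop)
    (μ := volume) (F := fun (n : ℕ) s => ‖bump c Y (psi V c n) w (x s)‖) (f := fun _ => (0:ℝ))
    (fun _ => ∑ c' : N.Node, ∑ _β : InputIso N c c', ‖w‖) ?_ ?_ ?_ ?_
  · refine Eventually.of_forall fun n => ?_
    have : Continuous (fun s => ‖bump c Y (psi V c n) w (x s)‖) :=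
      ((psi_pert c n Y w).smooth.continuous.comp hx).norm
    exact this.aestronglyMeasurable
  · refine Eventually.of_forall fun n => ae_of_all _ fun s _ => ?_
    rw [norm_norm]
    exact bump_bound c Y (psi_abs c n) w (x s)
  · exact intervalIntegrable_const
  · filter_upwards [hn] with s hs hsT
    have h1 : ∀ᶠ n : ℕ in atTop, bump c Y (psi V c n) w (x s) = 0 := by
      have h2 := eventually_all.2 fun d => bump_eventually_zero c Y w (x s) d (hs hsT d)
      filter_upwards [h2] with n hn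
      funext d
      exact hn d
    refine tendsto_const_nhds.congr' ?_
    filter_upwards [h1] with n hn
    rw [hn, norm_zero]

/-- If the input tuple of `c` is attained on non-null sets of times for all times of an interval,
it is constant on this interval. -/
lemma const_of_not_null {x : ℝ → Ph N V} (hx : Continuous x) {T : ℝ} {c : N.Node}
    {J : Set ℝ} (hJ : IsPreconnected J)
    (h : ∀ t ∈ J, ¬ NullHit x T c (tup V (InputIso.refl c) (x t))) :
    ∀ t ∈ J, ∀ t' ∈ J, tup V (InputIso.refl c) (x t) = tup V (InputIso.refl c) (x t') := by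
  let _ : MeasurableSpace (Tup N V c) := borel _
  have : BorelSpace (Tup N V c) := ⟨rfl⟩
  set D : Set (Tup N V c) := ⋃ (c' : N.Node), ⋃ (β : InputIso N c c'),
    {Y | 0 < (volume.restrict (Set.uIoc 0 T)) {s : ℝ | tup V β (x s) = Y}} with hD
  have hDc : D.Countable := by
    refine Set.countable_iUnion fun c' => Set.countable_iUnion fun β => ?_
    have hm : Measurable (fun s : ℝ => tup V β (x s)) := ((tup V β).continuous.comp hx).measurable
    exact Measure.countable_meas_level_set_pos hm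
  have hsub : (fun t => tup V (InputIso.refl c) (x t)) '' J ⊆ D := by
    rintro _ ⟨t, ht, rfl⟩
    by_contra hcon
    apply h t ht
    simp only [hD, mem_iUnion, mem_ofPred_eq, not_exists, not_lt, nonpos_iff_eq_zero] at hcon
    unfold NullHit
    have h2 : ∀ c' (β : InputIso N c c'), ∀ᵐ s : ℝ, s ∈ Set.uIoc 0 T →
        tup V β (x s) ≠ tup V (InputIso.refl c) (x t) := by
      intro c' β
      rw [← ae_restrict_iff' measurableSet_uIoc, ae_iff]
      simp only [not_not]
      exact hcon c' β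
    have h3 := ae_all_iff.2 fun c' => ae_all_iff.2 (h2 c')
    filter_upwards [h3] with s hs hsT c' β
    exact hs c' β hsT
  have hpre : IsPreconnected ((fun t => tup V (InputIso.refl c) (x t)) '' J) :=
    hJ.image _ ((tup V (InputIso.refl c)).continuous.comp hx).continuousOn
  have hsing := hDc.isTotallyDisconnected _ hsub hpre
  intro t ht t' ht'
  exact hsing (mem_image_of_mem _ ht) (mem_image_of_mem _ ht')

end

end Pool.Agent.H848R3.RI
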