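import Pool.Agent.H848R3.RI.Kick
import Pool.Agent.H848R3.RI.Hyp

set_option autoImplicit false
set_option linter.unusedSectionVars false
set_option linter.unusedVariables false
open Topology Filter Set MeasureTheory

namespace Pool.Agent.H848R3.RI

noncomputable section

variable {N : Network} {V : N.SType → Type} [∀ τ, NormedAddCommGroup (V τ)]
  [∀ τ, NormedSpace ℝ (V τ)]

/-- small perturbations of a small deformation are small deformations -/
lemma cls_eventually {f f₁ : Ph N V → Ph N V} {x x₁ : ℝ → Ph N V} {T δ T₁ : ℝ}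
    {g : Ph N V → Ph N V} {y : ℝ → ℝ → Ph N V} {τ : ℝ → ℝ}
    (hx : Continuous x) (hM : Cls f x T δ f₁ x₁ T₁) (hg : Pert g)
    (hF : Fam2 f₁ x₁ T₁ g y τ) :
    ∀ᶠ ε : ℝ in 𝓝 (0:ℝ), Cls f x T δ (fun z => f₁ z + ε • g z) (y ε) (τ ε) := by
  obtain ⟨δ', hδ', hn⟩ := hM.near
  obtain ⟨Kg, hKg⟩ := hg.lip
  obtain ⟨B, hB⟩ := hg.bdd
  have k1 : ∀ᶠ ε : ℝ in 𝓝 (0:ℝ), |ε| * (B + Kg) < (δ - δ') / 2 := by
    have h1 : Tendsto (fun ε : ℝ => |ε| * ((B:ℝ) + Kg)) (𝓝 0) (𝓝 (|(0:ℝ)| * (B + Kg))) :=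
      (continuous_abs.mul continuous_const).tendsto 0
    rw [abs_zero, zero_mul] at h1
    exact h1.eventually (gt_mem_nhds (by linarith))
  have k2 : ∀ᶠ ε : ℝ in 𝓝 (0:ℝ), |τ ε - T| < δ := by
    have h1 : ContinuousAt (fun ε => |τ ε - T|) 0 := (hF.τc.sub continuousAt_const).abs
    refine h1.eventually (gt_mem_nhds ?_)
    simp only [hF.τ0]
    exact hM.per
  have k3 : ∀ᶠ ε : ℝ in 𝓝 (0:ℝ), ∀ t ∈ Icc 0 T, ‖y ε t - x t‖ < δ := by
    refine (isCompact_Icc (a := 0) (b := T)).eventually_forall_of_forall_eventually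
      (P := fun ε t => ‖y ε t - x t‖ < δ) ?_
    intro t ht
    have h1 : ContinuousAt (fun p : ℝ × ℝ => ‖y p.1 p.2 - x p.2‖) (0, t) :=
      ((hF.yc t).sub (hx.continuousAt.comp continuousAt_snd)).norm
    refine h1.eventually (gt_mem_nhds ?_)
    simp only [hF.y0]
    exact hM.close t ht
  filter_upwards [k1, k2, k3, hF.orb] with ε h1 h2 h3 h4
  have hdif : SmAdm (fun z => f₁ z + ε • g z - f z) := by
    have hd := hM.dif.add (hg.sm.smul ε)
    have he : (fun z => f₁ z + ε • g z - f z) = fun z => (f₁ z - f z) + ε • g z := by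
      funext z; abel
    rw [he]; exact hd
  refine ⟨hM.adm.add_smul hg ε, hdif, ⟨(δ + δ') / 2, by linarith, fun z => ⟨?_, ?_⟩⟩, h4.1,
    h4.2, h2, h3⟩
  · have a1 : f₁ z + ε • g z - f z = (f₁ z - f z) + ε • g z := by abel
    rw [a1]
    have a2 : ‖ε • g z‖ ≤ |ε| * B := by
      rw [norm_smul, Real.norm_eq_abs]
      exact mul_le_mul_of_nonneg_left (hB z) (abs_nonneg _)
    have a3 : 0 ≤ |ε| * Kg := mul_nonneg (abs_nonneg _) Kg.2
    have a4 := norm_add_le (f₁ z - f z) (ε • g z)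
    have a5 := (hn z).1
    nlinarith
  · have d1 := (hM.adm.smooth.differentiable one_ne_zero z).hasFDerivAt
    have d2 := ((hg.smooth.differentiable one_ne_zero z).hasFDerivAt).const_smul ε
    have a1 : fderiv ℝ (fun z => f₁ z + ε • g z) z - fderiv ℝ f z =
        (fderiv ℝ f₁ z - fderiv ℝ f z) + ε • fderiv ℝ g z := by
      have : fderiv ℝ (fun z => f₁ z + ε • g z) z = fderiv ℝ f₁ z + ε • fderiv ℝ g z :=
        (d1.add d2).fderiv
      rw [this]; abel
    rw [a1]
    have a2 : ‖ε • fderiv ℝ g z‖ ≤ |ε| * Kg := by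
      rw [norm_smul, Real.norm_eq_abs]
      exact mul_le_mul_of_nonneg_left (norm_fderiv_le_of_lipschitz ℝ hKg) (abs_nonneg _)
    have a3 : 0 ≤ |ε| * B := mul_nonneg (abs_nonneg _) B.2
    have a4 := norm_add_le (fderiv ℝ f₁ z - fderiv ℝ f z) (ε • fderiv ℝ g z)
    have a5 := (hn z).2
    nlinarith

/-- Rigid phase relations only relate input isomorphic nodes. -/
theorem rigid_input [∀ τ, FiniteDimensional ℝ (V τ)] [∀ τ, Nontrivial (V τ)]
    {f : Ph N V → Ph N V} {x : ℝ → Ph N V} {T δ : ℝ} (hf : Admissible f) (hx : PerOrb f x T)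
    (hnd : NDeg f x T) (hδ : 0 < δ) (c d : N.Node) (ρ : ℝ)
    (hrig : ∀ (h : Ph N V → Ph N V) (x' : ℝ → Ph N V) (T' : ℝ), SmAdm h →
      (∀ z, ‖h z‖ < δ ∧ ‖fderiv ℝ h z‖ < δ) → PerOrb (fun z => f z + h z) x' T' →
      |T' - T| < δ → (∀ t ∈ Icc 0 T, ‖x' t - x t‖ < δ) →
      ∀ t, st (x' t) c = st (x' (t + ρ * T')) d) :
    Nonempty (InputIso N c d) := by
  have hC : Cls f x T δ f x T :=
    { adm := hf
      dif := by
        have h0 : (fun z => f z - f z) = fun _ : Ph N V => (0 : Ph N V) := by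
          funext z; exact sub_self _
        rw [h0]; exact SmAdm.zero
      near := ⟨0, hδ, fun z => by simp⟩
      orb := hx
      nd := hnd
      per := by simpa using hδ
      close := fun t _ => by simpa using hδ }
  have hrel : ∀ (f' : Ph N V → Ph N V) (x' : ℝ → Ph N V) (T' : ℝ), Cls f x T δ f' x' T' →
      ∀ t, st (x' t) c = st (x' (t + ρ * T')) d := by
    intro f' x' T' hc
    have he : (fun z => f z + (f' z - f z)) = f' := by funext z; abel
    obtain ⟨δ', h1, h2⟩ := hc.near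
    refine hrig (fun z => f' z - f z) x' T' hc.dif (fun z => ⟨(h2 z).1.trans_lt h1, ?_⟩)
      (by rw [he]; exact hc.orb) hc.per hc.close
    have d1 := (hc.adm.smooth.differentiable one_ne_zero z).hasFDerivAt
    have d2 := (hf.smooth.differentiable one_ne_zero z).hasFDerivAt
    have d3 : fderiv ℝ (fun z => f' z - f z) z = fderiv ℝ f' z - fderiv ℝ f z :=
      (d1.sub d2).fderiv
    rw [d3]
    exact (h2 z).2.trans_lt h1
  obtain ⟨f₁, x₁, T₁, t₀, hM⟩ := exists_max hC
  by_contra hno'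
  have hno : InputIso N c d → False := fun β => hno' ⟨β⟩
  have h : N.sp c = N.sp d := (st_iff.1 (hrel _ _ _ hM.cls 0)).1
  by_cases hrest : f₁ (x₁ t₀) c = 0
  · have h1 := rest_forever hx.continuous hM hf.smooth c hrest (t₀ - ρ * T₁)
    have h2 := hrel _ _ _ hM.cls (t₀ - ρ * T₁)
    rw [sub_add_cancel] at h2
    have h3 : st (x₁ (t₀ - ρ * T₁)) c = st (x₁ t₀) c := by
      rw [st_of rfl, cst_self, h1]
    obtain ⟨β, -⟩ := match_all hx.continuous hM hf.smooth c d (h3.symm.trans h2)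
    exact hno β
  · obtain ⟨η, hη, hmax⟩ := near_max hx.continuous hM hf.smooth
    have hex : ∃ t ∈ Ioo (t₀ - η) (t₀ + η),
        NullHit x₁ T₁ c (tup V (InputIso.refl c) (x₁ t)) := by
      by_contra hcon
      push Not at hcon
      exact hrest (rest_of_not_null hη hM.cls.orb c hcon).1
    obtain ⟨t, ht, hnull⟩ := hex
    obtain ⟨hMt, -, -⟩ := hmax t ht
    refine phase_kick (ρ := ρ) hM.cls.adm.smooth hM.cls.orb hM.cls.nd
      (Ioo_subset_Icc_self hMt.mem) c d h hno hnull ?_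
    intro g hg y τ hfam
    filter_upwards [cls_eventually hx.continuous hM.cls hg hfam] with ε hε s
    exact (st_of h).1 (hrel _ _ _ hε s)

end

end Pool.Agent.H848R3.RI
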