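import Pool.Agent.H848R3.RI.Rest

set_option autoImplicit false
set_option linter.unusedSectionVars false
set_option linter.unusedVariables false
open Topology Filter Set MeasureTheory

namespace Pool.Agent.H848R3.RI

noncomputable section

variable {N : Network} {V : N.SType → Type} [∀ τ, NormedAddCommGroup (V τ)]
  [∀ τ, NormedSpace ℝ (V τ)] [∀ τ, FiniteDimensional ℝ (V τ)]

/-- a continuous family of periodic orbits of `f₁ + ε g` -/
structure Fam2 (f₁ : Ph N V → Ph N V) (x₁ : ℝ → Ph N V) (T₁ : ℝ) (g : Ph N V → Ph N V)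
    (y : ℝ → ℝ → Ph N V) (τ : ℝ → ℝ) : Prop where
  y0 : y 0 = x₁
  τ0 : τ 0 = T₁
  τc : ContinuousAt τ 0
  yc : ∀ t, ContinuousAt (fun p : ℝ × ℝ => y p.1 p.2) (0, t)
  orb : ∀ᶠ ε in 𝓝 (0:ℝ), PerOrb (fun z => f₁ z + ε • g z) (y ε) (τ ε) ∧
          NDeg (fun z => f₁ z + ε • g z) (y ε) (τ ε)

/-- A phase relation between `c` and `d` cannot persist under the bump perturbations at the input
tuple of `c` if there is no input isomorphism `c → d`. -/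
lemma phase_kick [∀ τ, Nontrivial (V τ)]
    {f₁ : Ph N V → Ph N V} {x₁ : ℝ → Ph N V} {T₁ t₀ ρ : ℝ}
    (hf₁ : ContDiff ℝ 1 f₁) (ho : PerOrb f₁ x₁ T₁) (hnd : NDeg f₁ x₁ T₁)
    (ht₀ : t₀ ∈ Icc 0 T₁)
    (c d : N.Node) (h : N.sp c = N.sp d) (hno : InputIso N c d → False)
    (hnull : NullHit x₁ T₁ c (tup V (InputIso.refl c) (x₁ t₀)))
    (hrel : ∀ g : Ph N V → Ph N V, Pert g → ∀ (y : ℝ → ℝ → Ph N V) (τ : ℝ → ℝ),
      Fam2 f₁ x₁ T₁ g y τ →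
      ∀ᶠ ε in 𝓝 (0:ℝ), ∀ s, cst h (y ε s c) = y ε (s + ρ * τ ε) d) : False := by
  obtain ⟨C, hC0, hC⟩ := persist hf₁ ho hnd
  obtain ⟨w, hw⟩ := exists_ne (0 : V (N.sp c))
  have hT := ho.pos
  -- reduction of the phase
  set k : ℤ := ⌊t₀ / T₁ + ρ⌋ with hk
  set ρ' : ℝ := ρ - k with hρ'
  set t₁ : ℝ := t₀ + ρ' * T₁ with ht₁d
  have ht₁ : t₁ ∈ Icc 0 T₁ := by
    have h1 : t₁ = T₁ * Int.fract (t₀ / T₁ + ρ) := by
      rw [ht₁d, hρ', Int.fract, ← hk]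
      field_simp
      ring
    rw [h1]
    refine ⟨mul_nonneg hT.le (Int.fract_nonneg _), ?_⟩
    exact mul_le_of_le_one_right hT.le (Int.fract_lt_one _).le
  set Y := tup V (InputIso.refl c) (x₁ t₀) with hY
  have hlim := integral_bump ho.continuous hnull w
  set D₀ := fderiv ℝ f₁ (x₁ t₀) with hD₀
  set D₁ := fderiv ℝ f₁ (x₁ t₁) with hD₁
  set M : ℝ := ‖D₁‖ * (C t₁ + |ρ'| * C 0 * ‖f₁ (x₁ t₁)‖) + ‖D₀‖ * C t₀ with hM
  have h1 : ∀ n : ℕ, ‖w‖ ≤ M * ∫ s in (0:ℝ)..T₁, ‖bump c Y (psi V c n) w (x₁ s)‖ := by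
    intro n
    have hp := psi_pert c n Y w
    set g := bump c Y (psi V c n) w with hg
    set I : ℝ := ∫ s in (0:ℝ)..T₁, ‖g (x₁ s)‖ with hI
    have hI0 : 0 ≤ I := intervalIntegral.integral_nonneg hT.le (fun s _ => norm_nonneg _)
    obtain ⟨y, τ, y0, τ0, τc, yc, orb, ζ, τ', hτ', hτb, hζ⟩ := hC g hp.smooth hp.lip hp.bdd
    have hfam : Fam2 f₁ x₁ T₁ g y τ := ⟨y0, τ0, τc, yc, orb⟩
    have hgd : ∀ z, g z d = 0 := fun z => by
      rw [hg]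
      unfold bump
      exact Finset.sum_eq_zero fun β _ => (hno β).elim
    have hev : ∀ᶠ ε in 𝓝 (0:ℝ), cst h ((f₁ (y ε t₀) + ε • g (y ε t₀)) c) =
        f₁ (y ε (t₀ + ρ' * τ ε)) d := by
      filter_upwards [hrel g hp y τ hfam, orb] with ε h2 h3
      have hper : Function.Periodic (y ε) (τ ε) := h3.1.per
      have h4 : ∀ s, cst h (y ε s c) = y ε (s + ρ' * τ ε) d := by
        intro s
        rw [h2 s]
        have h5 : s + ρ * τ ε = (s + ρ' * τ ε) + k * τ ε := by rw [hρ']; ring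
        rw [h5, hper.int_mul k]
      have d1 := (hasDerivAt_pi.1 (h3.1.sol t₀)) c
      have d2 := (cst (V := V) h).hasFDerivAt.comp_hasDerivAt t₀ d1
      have d3 : HasDerivAt (fun s => y ε (s + ρ' * τ ε))
          ((f₁ (y ε (t₀ + ρ' * τ ε)) + ε • g (y ε (t₀ + ρ' * τ ε)))) t₀ := by
        have h6 := h3.1.sol (t₀ + ρ' * τ ε)
        exact h6.comp_add_const t₀ (ρ' * τ ε)
      have d4 := (hasDerivAt_pi.1 d3) d
      have d5 : HasDerivAt (fun s => cst h (y ε s c))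
          ((f₁ (y ε (t₀ + ρ' * τ ε)) + ε • g (y ε (t₀ + ρ' * τ ε))) d) t₀ :=
        d4.congr_of_eventuallyEq (Eventually.of_forall h4)
      have d6 := d2.unique d5
      rw [d6, Pi.add_apply, Pi.smul_apply, hgd, smul_zero, add_zero]
    have hy0 : y 0 t₀ = x₁ t₀ := by rw [y0]
    -- derivatives with respect to `ε`
    obtain ⟨hζ0, hζ0'⟩ := hζ t₀ ht₀
    obtain ⟨hζ1, hζ1'⟩ := hζ t₁ ht₁
    have e1 : HasDerivAt (fun ε => y ε t₀) (ζ t₀) 0 := by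
      have := hζ0' (fun _ => t₀) 0 rfl (hasDerivAt_const _ _)
      rw [zero_smul, add_zero] at this
      exact this
    have e2 : HasDerivAt (fun ε => y ε (t₀ + ρ' * τ ε)) (ζ t₁ + (ρ' * τ') • f₁ (x₁ t₁)) 0 := by
      refine hζ1' (fun ε => t₀ + ρ' * τ ε) (ρ' * τ') ?_ ?_
      · simp only [τ0]; rfl
      · exact (hτ'.const_mul ρ').const_add t₀
    have e3 : HasDerivAt (fun ε => f₁ (y ε t₀)) (D₀ (ζ t₀)) 0 := by
      have := (hf₁.differentiable one_ne_zero (y 0 t₀)).hasFDerivAt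
      have h2 := this.comp_hasDerivAt (0:ℝ) e1
      rw [hy0] at h2
      exact h2
    have e4 : HasDerivAt (fun ε => g (y ε t₀)) (fderiv ℝ g (x₁ t₀) (ζ t₀)) 0 := by
      have := (hp.smooth.differentiable one_ne_zero (y 0 t₀)).hasFDerivAt
      have h2 := this.comp_hasDerivAt (0:ℝ) e1
      rw [hy0] at h2
      exact h2
    have e5 := e3.add ((hasDerivAt_id (0:ℝ)).smul e4)
    simp only [id, zero_smul, one_smul, zero_add, hy0] at e5
    have e6 := (hasDerivAt_pi.1 e5) c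
    have e7 := (cst (V := V) h).hasFDerivAt.comp_hasDerivAt (0:ℝ) e6
    have hy1 : y 0 (t₀ + ρ' * τ 0) = x₁ t₁ := by rw [y0, τ0]
    have e8 : HasDerivAt (fun ε => f₁ (y ε (t₀ + ρ' * τ ε)))
        (D₁ (ζ t₁ + (ρ' * τ') • f₁ (x₁ t₁))) 0 := by
      have := (hf₁.differentiable one_ne_zero (y 0 (t₀ + ρ' * τ 0))).hasFDerivAt
      have h2 := this.comp_hasDerivAt (0:ℝ) e2
      rw [hy1] at h2
      exact h2
    have e9 := (hasDerivAt_pi.1 e8) d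
    have e10 := e9.unique (e7.congr_of_eventuallyEq (hev.mono fun ε h => h.symm))
    simp only [Pi.add_apply, map_add] at e10
    have e11 : cst h (g (x₁ t₀) c) = D₁ (ζ t₁) d + D₁ ((ρ' * τ') • f₁ (x₁ t₁)) d -
        cst h (D₀ (ζ t₀) c) := by
      rw [e10]; abel
    have e12 : ‖w‖ ≤ ‖g (x₁ t₀) c‖ := bump_self c (x₁ t₀) n w
    have e13 : ‖g (x₁ t₀) c‖ ≤ ‖D₁ (ζ t₁) d‖ + ‖D₁ ((ρ' * τ') • f₁ (x₁ t₁)) d‖ +
        ‖D₀ (ζ t₀) c‖ := by
      rw [← norm_cst h (g (x₁ t₀) c), e11]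
      refine (norm_sub_le _ _).trans ?_
      rw [norm_cst]
      have := norm_add_le (D₁ (ζ t₁) d) (D₁ ((ρ' * τ') • f₁ (x₁ t₁)) d)
      linarith
    have e14 : ‖D₁ (ζ t₁) d‖ ≤ ‖D₁‖ * (C t₁ * I) :=
      (norm_le_pi_norm _ d).trans ((D₁.le_opNorm _).trans
        (mul_le_mul_of_nonneg_left hζ1 (norm_nonneg _)))
    have e15 : ‖D₁ ((ρ' * τ') • f₁ (x₁ t₁)) d‖ ≤
        ‖D₁‖ * (|ρ'| * (C 0 * I) * ‖f₁ (x₁ t₁)‖) := by
      refine (norm_le_pi_norm _ d).trans ((D₁.le_opNorm _).trans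
        (mul_le_mul_of_nonneg_left ?_ (norm_nonneg _)))
      rw [norm_smul, Real.norm_eq_abs, abs_mul]
      gcongr
    have e16 : ‖D₀ (ζ t₀) c‖ ≤ ‖D₀‖ * (C t₀ * I) :=
      (norm_le_pi_norm _ c).trans ((D₀.le_opNorm _).trans
        (mul_le_mul_of_nonneg_left hζ0 (norm_nonneg _)))
    calc ‖w‖ ≤ ‖D₁‖ * (C t₁ * I) + ‖D₁‖ * (|ρ'| * (C 0 * I) * ‖f₁ (x₁ t₁)‖) +
          ‖D₀‖ * (C t₀ * I) := by linarith
      _ = M * I := by rw [hM]; ring
  have h2 := hlim.const_mul M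
  rw [mul_zero] at h2
  have h3 := ge_of_tendsto' h2 h1
  exact hw (norm_le_zero_iff.1 h3)

end

end Pool.Agent.H848R3.RI
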