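import Mathlib
import Pool.Agent.GR.Flow

set_option autoImplicit false
open Topology Filter Set MeasureTheory
open Pool.Agent.GR.Flow

namespace Pool.Agent.H848R3.RI

noncomputable section

variable {E : Type} [NormedAddCommGroup E] [NormedSpace ℝ E]

/-- `Φ` is the fundamental solution (principal matrix solution) of the variational equation
`v' = Df(x(t)) v` of `x' = f(x)` along the curve `x`. -/
def IsFund (f : E → E) (x : ℝ → E) (Φ : ℝ → E →L[ℝ] E) : Prop :=
  (∀ v, Φ 0 v = v) ∧ ∀ v t, HasDerivAt (fun s => Φ s v) (fderiv ℝ f (x t) (Φ t v)) t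

lemma lin_zero {A : ℝ → E →L[ℝ] E} {K T : ℝ} (hA : ∀ t ∈ Icc 0 T, ‖A t‖ ≤ K) {w : ℝ → E}
    (hw : ∀ t ∈ Icc 0 T, HasDerivAt w (A t (w t)) t) (h0 : w 0 = 0) : ∀ t ∈ Icc 0 T, w t = 0 := by
  intro t ht
  have h := norm_le_gronwallBound_of_norm_deriv_right_le (f := w) (f' := fun t => A t (w t))
    (δ := 0) (K := K) (ε := 0) (a := 0) (b := T)
    (fun s hs => (hw s hs).continuousAt.continuousWithinAt)
    (fun s hs => (hw s ⟨hs.1, hs.2.le⟩).hasDerivWithinAt) (by simp [h0])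
    (fun s hs => by
      have := (A s).le_opNorm (w s)
      have h2 := mul_le_mul_of_nonneg_right (hA s ⟨hs.1, hs.2.le⟩) (norm_nonneg (w s))
      linarith) t ht
  rw [gronwallBound_ε0, zero_mul] at h
  exact norm_le_zero_iff.1 h

lemma forced_bound [CompleteSpace E] {A : ℝ → E →L[ℝ] E} {K T : ℝ} (hK : 0 < K)
    (hA : ∀ t ∈ Icc 0 T, ‖A t‖ ≤ K)
    {ξ b : ℝ → E} (hb : Continuous b) (hξ : ∀ t ∈ Icc 0 T, HasDerivAt ξ (A t (ξ t) + b t) t)
    (h0 : ξ 0 = 0) : ∀ t ∈ Icc 0 T, ‖ξ t‖ ≤ Real.exp (K * T) * ∫ s in (0:ℝ)..T, ‖b s‖ := by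
  intro t ht
  have hT : 0 ≤ T := ht.1.trans ht.2
  set m : ℝ := ∫ s in (0:ℝ)..T, ‖b s‖ with hm
  have hm0 : 0 ≤ m := intervalIntegral.integral_nonneg hT (fun s _ => norm_nonneg _)
  set γ : ℝ → E := fun t => ∫ s in (0:ℝ)..t, b s with hγ
  have hγd : ∀ t, HasDerivAt γ (b t) t := fun t =>
    intervalIntegral.integral_hasDerivAt_right (hb.intervalIntegrable _ _)
      (hb.stronglyMeasurableAtFilter _ _) hb.continuousAt
  have hγm : ∀ s ∈ Icc 0 T, ‖γ s‖ ≤ m := by
    intro s hs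
    refine (intervalIntegral.norm_integral_le_integral_norm hs.1).trans ?_
    exact intervalIntegral.integral_mono_interval le_rfl hs.1 hs.2
      (Filter.Eventually.of_forall fun s => norm_nonneg _) (hb.norm.intervalIntegrable _ _)
  have h := norm_le_gronwallBound_of_norm_deriv_right_le (f := fun t => ξ t - γ t)
    (f' := fun t => A t (ξ t))
    (δ := 0) (K := K) (ε := K * m) (a := 0) (b := T)
    (fun s hs => ((hξ s hs).sub (hγd s)).continuousAt.continuousWithinAt)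
    (fun s hs => by
      have := ((hξ s ⟨hs.1, hs.2.le⟩).sub (hγd s)).hasDerivWithinAt (s := Ici s)
      rw [add_sub_cancel_right] at this
      exact this) (by simp [h0, hγ])
    (fun s hs => by
      have h1 := (A s).le_opNorm (ξ s)
      have h2 := mul_le_mul_of_nonneg_right (hA s ⟨hs.1, hs.2.le⟩) (norm_nonneg (ξ s))
      have h3 : ‖ξ s‖ ≤ ‖ξ s - γ s‖ + ‖γ s‖ := by
        have := norm_add_le (ξ s - γ s) (γ s)
        simpa using this
      have h4 := hγm s ⟨hs.1, hs.2.le⟩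
      have h5 : K * ‖ξ s‖ ≤ K * (‖ξ s - γ s‖ + ‖γ s‖) := mul_le_mul_of_nonneg_left h3 hK.le
      nlinarith) t ht
  rw [gronwallBound_of_K_ne_0 hK.ne'] at h
  simp only [zero_mul, sub_zero, zero_add] at h
  have h1 : K * m / K = m := by field_simp
  rw [h1] at h
  have h3 : ‖ξ t‖ ≤ ‖ξ t - γ t‖ + ‖γ t‖ := by
    have := norm_add_le (ξ t - γ t) (γ t)
    simpa using this
  have h4 := hγm t ht
  have h5 : Real.exp (K * t) ≤ Real.exp (K * T) :=
    Real.exp_le_exp.2 (mul_le_mul_of_nonneg_left ht.2 hK.le)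
  nlinarith

lemma contDiff_flow' [CompleteSpace E] {X : E → E} (hX : ContDiff ℝ 1 X) {K : NNReal}
    (hK : LipschitzWith K X) {φ : ℝ → E → E} (hφ : IsFlowOf X φ) :
    ContDiff ℝ 1 (fun p : ℝ × E => φ p.1 p.2) := by
  have := contDiff_flow (X := ⟨X, hX.continuous⟩) (m := 1) one_ne_zero (by simpa using hX) hK hφ
  simpa using this

lemma flow_diff [CompleteSpace E] {X : E → E} (hX : ContDiff ℝ 1 X) {K : NNReal}
    (hK : LipschitzWith K X) {φ : ℝ → E → E} (hφ : IsFlowOf X φ) (s : ℝ) :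
    Differentiable ℝ (φ s) := by
  have h1 : ContDiff ℝ 1 (φ s) := (contDiff_flow' hX hK hφ).comp
    (contDiff_const.prodMk contDiff_id)
  exact h1.differentiable one_ne_zero

/-- The derivative of the flow with respect to the initial value solves the variational
equation. -/
lemma flow_fund [CompleteSpace E] {X : E → E} (hX : ContDiff ℝ 1 X) {K : NNReal}
    (hK : LipschitzWith K X) {φ : ℝ → E → E} (hφ : IsFlowOf X φ) (x v : E) (t : ℝ) :
    HasDerivAt (fun s => fderiv ℝ (φ s) x v) (fderiv ℝ X (φ t x) (fderiv ℝ (φ t) x v)) t := by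
  have hd := flow_diff hX hK hφ
  have h1 : ∀ s, fderiv ℝ (φ s) x v =
      fderiv ℝ (φ (s - t)) (φ t x) (fderiv ℝ (φ t) x v) := by
    intro s
    have h2 : φ s = φ (s - t) ∘ φ t := by
      funext z
      rw [Function.comp_apply, ← hφ.add hK, sub_add_cancel]
    conv_lhs => rw [h2]
    rw [fderiv_comp x (hd _ _) (hd _ _)]
    rfl
  have h2 := hasDerivAt_fderiv_flow (X := ⟨X, hX.continuous⟩) hX hK hφ (φ t x)
    (fderiv ℝ (φ t) x v)
  have h3 : HasDerivAt (fun s => fderiv ℝ (φ (s - t)) (φ t x) (fderiv ℝ (φ t) x v))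
      (fderiv ℝ X (φ t x) (fderiv ℝ (φ t) x v)) t := by
    have h4 : HasDerivAt (fun s : ℝ => s - t) 1 t := (hasDerivAt_id t).sub_const t
    have h5 := HasDerivAt.scomp (g₁ := fun h => fderiv ℝ (φ h) (φ t x) (fderiv ℝ (φ t) x v))
      (h := fun s : ℝ => s - t) t (by simpa using h2) h4
    rw [one_smul] at h5
    exact h5
  refine h3.congr_of_eventuallyEq ?_
  exact Filter.Eventually.of_forall h1

lemma fderiv_flow_zero {X : E → E} {φ : ℝ → E → E} (hφ : IsFlowOf X φ) (x v : E) :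
    fderiv ℝ (φ 0) x v = v := by
  have : φ 0 = id := by funext z; exact hφ.zero z
  rw [this, fderiv_id]; rfl

/-- existence of flows of bounded Lipschitz fields -/
lemma exists_flowOf [CompleteSpace E] {X : E → E} {K M : NNReal} (hK : LipschitzWith K X)
    (hM : ∀ x, ‖X x‖ ≤ M) : ∃ φ : ℝ → E → E, IsFlowOf X φ := by
  choose γ h0 h1 using exists_solution hK hM
  exact ⟨fun t x => γ x t, ⟨h0, h1⟩⟩

lemma flow_eq {X : E → E} {K : NNReal} (hK : LipschitzWith K X) {φ : ℝ → E → E}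
    (hφ : IsFlowOf X φ) {y : ℝ → E} (hy : ∀ t, HasDerivAt y (X (y t)) t) (t : ℝ) :
    φ t (y 0) = y t := by
  have h1 : (fun t => φ t (y 0)) = y := by
    refine ODE_solution_unique_univ (v := fun _ => X) (s := fun _ => univ) (K := K) (t₀ := 0)
      (fun t => hK.lipschitzOnWith) (fun t => ⟨hφ.deriv _ t, trivial⟩)
      (fun t => ⟨hy t, trivial⟩) ?_
    simp only [hφ.zero]
  exact congrFun h1 t

end

end Pool.Agent.H848R3.RI
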