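import Pool.Agent.H848R3.RI.Persist

set_option autoImplicit false
open Topology Filter Set MeasureTheory

namespace Pool.Agent.H848R3.RI

noncomputable section

/-- A coupled cell network: finitely many nodes and arrows, each arrow with a head and a tail node,
a type for every node and for every arrow; arrows of equal type have heads of equal type and tails
of equal type. Every node type carries the label (`stype`) of its state space: nodes of equal type
have the same state space, and nodes of different type may or may not have the same one. -/
structure Network where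
  Node : Type
  Arrow : Type
  NType : Type
  AType : Type
  SType : Type
  [finN : Fintype Node]
  [finA : Fintype Arrow]
  head : Arrow → Node
  tail : Arrow → Node
  ntype : Node → NType
  atype : Arrow → AType
  stype : NType → SType
  head_type : ∀ e e', atype e = atype e' → ntype (head e) = ntype (head e')
  tail_type : ∀ e e', atype e = atype e' → ntype (tail e) = ntype (tail e')

attribute [instance] Network.finN Network.finA

/-- The label of the state space of a node. -/
abbrev Network.sp (N : Network) (c : N.Node) : N.SType := N.stype (N.ntype c)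

/-- The input set `I(c)`: the arrows with head `c`. -/
abbrev Network.In (N : Network) (c : N.Node) : Type := {e : N.Arrow // N.head e = c}

/-- An input isomorphism `c → d`: nodes `c`, `d` of equal type and a bijection `I(c) → I(d)`
preserving arrow types. -/
structure InputIso (N : Network) (c d : N.Node) where
  toEquiv : N.In c ≃ N.In d
  node : N.ntype c = N.ntype d
  arr : ∀ e, N.atype (toEquiv e).1 = N.atype e.1

/-- The phase space: one state in the state space `V (N.sp c)` for every node `c`. -/
abbrev Ph (N : Network) (V : N.SType → Type) : Type := ∀ c : N.Node, V (N.sp c)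

/-- The state of node `c`, as a point of the disjoint union of all state spaces (so that states of
two nodes can be equal iff the nodes have the same state space). -/
def st {N : Network} {V : N.SType → Type} (x : Ph N V) (c : N.Node) : Σ τ, V τ :=
  ⟨N.sp c, x c⟩

variable {N : Network} {V : N.SType → Type} [∀ τ, NormedAddCommGroup (V τ)]
  [∀ τ, NormedSpace ℝ (V τ)]

/-- Admissible vector fields: `C¹`, and `f_c(x)` depends only on `x_c` and the states at the tails
of the arrows in `I(c)`, in the same way for input isomorphic nodes. -/
structure Admissible (f : Ph N V → Ph N V) : Prop where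
  smooth : ContDiff ℝ 1 f
  comp : ∀ (c d : N.Node) (β : InputIso N c d) (x y : Ph N V), st x c = st y d →
    (∀ e : N.In c, st x (N.tail e.1) = st y (N.tail (β.toEquiv e).1)) → st (f x) c = st (f y) d

instance (c : N.Node) : Fintype (N.In c) := by
  classical
  infer_instance

instance instFiniteInputIso (c d : N.Node) : Finite (InputIso N c d) := by
  apply Finite.of_injective (fun β : InputIso N c d => β.toEquiv)
  intro β γ h
  cases β; cases γ
  simp only at h
  subst h
  rfl

instance (c d : N.Node) : Fintype (InputIso N c d) := Fintype.ofFinite _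

/-- transport between state spaces of equal types -/
def cst {τ τ' : N.SType} (h : τ = τ') : V τ →L[ℝ] V τ' := h ▸ ContinuousLinearMap.id ℝ (V τ)

@[simp] lemma cst_self {τ : N.SType} (h : τ = τ) (v : V τ) : cst h v = v := rfl

lemma cst_cst {τ τ' τ'' : N.SType} (h : τ = τ') (h' : τ' = τ'') (v : V τ) :
    cst h' (cst h v) = cst (h.trans h') v := by
  subst h; subst h'; rfl

@[simp] lemma norm_cst {τ τ' : N.SType} (h : τ = τ') (v : V τ) : ‖cst h v‖ = ‖v‖ := by
  subst h; rfl

lemma mk_eq_iff {τ τ' : N.SType} (u : V τ) (v : V τ') :
    ((⟨τ, u⟩ : Σ τ, V τ) = ⟨τ', v⟩) ↔ ∃ h : τ = τ', cst h u = v := by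
  constructor
  · intro h
    cases h
    exact ⟨rfl, rfl⟩
  · rintro ⟨h, h'⟩
    subst h
    rw [cst_self] at h'
    rw [h']

lemma st_iff {x y : Ph N V} {c d : N.Node} :
    st x c = st y d ↔ ∃ h : N.sp c = N.sp d, cst h (x c) = y d :=
  mk_eq_iff _ _

lemma st_of {x y : Ph N V} {c d : N.Node} (h : N.sp c = N.sp d) :
    st x c = st y d ↔ cst h (x c) = y d := by
  rw [st_iff]
  exact ⟨fun ⟨_, h2⟩ => h2, fun h2 => ⟨h, h2⟩⟩

lemma isClosed_st (a b : N.Node) : IsClosed {z : Ph N V | st z a = st z b} := by
  by_cases h : N.sp a = N.sp b
  · have : {z : Ph N V | st z a = st z b} = {z | cst h (z a) = z b} := by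
      ext z; exact st_of h
    rw [this]
    exact isClosed_eq ((cst h).continuous.comp (continuous_apply a)) (continuous_apply b)
  · have : {z : Ph N V | st z a = st z b} = ∅ := by
      ext z
      simp only [mem_ofPred_eq, mem_empty_iff_false, iff_false]
      intro h2
      exact h (st_iff.1 h2).1
    rw [this]
    exact isClosed_empty

/-- composition of input isomorphisms -/
def InputIso.trans {c d e : N.Node} (β : InputIso N c d) (γ : InputIso N d e) :
    InputIso N c e where
  toEquiv := β.toEquiv.trans γ.toEquiv
  node := β.node.trans γ.node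
  arr := fun i => by
    simp only [Equiv.trans_apply]
    rw [γ.arr, β.arr]

def InputIso.symm {c d : N.Node} (β : InputIso N c d) : InputIso N d c where
  toEquiv := β.toEquiv.symm
  node := β.node.symm
  arr := fun i => by
    have := β.arr (β.toEquiv.symm i)
    rw [Equiv.apply_symm_apply] at this
    exact this.symm

def InputIso.refl (c : N.Node) : InputIso N c c where
  toEquiv := Equiv.refl _
  node := rfl
  arr := fun _ => rfl

lemma InputIso.ext' {c d : N.Node} {β γ : InputIso N c d} (h : β.toEquiv = γ.toEquiv) :
    β = γ := by
  cases β; cases γ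
  simp only at h
  subst h
  rfl

/-- the bijection `B(c,d) → B(c,e)` induced by an input isomorphism `d → e` -/
def InputIso.transEquiv {c d e : N.Node} (γ : InputIso N d e) :
    InputIso N c d ≃ InputIso N c e where
  toFun := fun β => β.trans γ
  invFun := fun β => β.trans γ.symm
  left_inv := fun β => by
    apply InputIso.ext'
    ext i
    simp [InputIso.trans, InputIso.symm]
  right_inv := fun β => by
    apply InputIso.ext'
    ext i
    simp [InputIso.trans, InputIso.symm]

lemma InputIso.spq {c d : N.Node} (β : InputIso N c d) : N.sp c = N.sp d :=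
  congrArg N.stype β.node

lemma InputIso.tailType {c d : N.Node} (β : InputIso N c d) (e : N.In c) :
    N.sp (N.tail (β.toEquiv e).1) = N.sp (N.tail e.1) :=
  congrArg N.stype (N.tail_type _ _ (β.arr e))

/-- the space of input tuples of `c` -/
abbrev Tup (N : Network) (V : N.SType → Type) (c : N.Node) : Type :=
  V (N.sp c) × (∀ e : N.In c, V (N.sp (N.tail e.1)))

/-- the input tuple of node `d`, pulled back to `c` -/
def tup (V : N.SType → Type) [∀ τ, NormedAddCommGroup (V τ)] [∀ τ, NormedSpace ℝ (V τ)]
    {c d : N.Node} (β : InputIso N c d) : Ph N V →L[ℝ] Tup N V c :=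
  ((cst β.spq.symm).comp (ContinuousLinearMap.proj d)).prod
    (ContinuousLinearMap.pi fun e =>
      (cst (β.tailType e)).comp (ContinuousLinearMap.proj (N.tail (β.toEquiv e).1)))

lemma tup_fst {c d : N.Node} (β : InputIso N c d) (z : Ph N V) :
    (tup V β z).1 = cst β.spq.symm (z d) := rfl

lemma tup_snd {c d : N.Node} (β : InputIso N c d) (z : Ph N V) (e : N.In c) :
    (tup V β z).2 e = cst (β.tailType e) (z (N.tail (β.toEquiv e).1)) := rfl

/-- tuples agree iff all states agree -/
lemma tup_eq_iff {c d d' : N.Node} (β : InputIso N c d) (γ : InputIso N c d')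
    (z z' : Ph N V) : tup V β z = tup V γ z' ↔ (st z d = st z' d' ∧
      ∀ e : N.In c, st z (N.tail (β.toEquiv e).1) = st z' (N.tail (γ.toEquiv e).1)) := by
  have key : ∀ {τ τ' τ'' : N.SType} (h : τ = τ'') (h' : τ' = τ'') (u : V τ) (v : V τ'),
      cst h u = cst h' v ↔ (⟨τ, u⟩ : Σ τ, V τ) = ⟨τ', v⟩ := by
    intro τ τ' τ'' h h' u v
    subst h; subst h'
    rw [cst_self, cst_self]
    constructor
    · intro h; rw [h]
    · intro h
      have := (mk_eq_iff _ _).1 h
      obtain ⟨h1, h2⟩ := this
      exact h2
  rw [Prod.ext_iff, tup_fst, tup_fst, key]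
  constructor
  · rintro ⟨h1, h2⟩
    refine ⟨h1, fun e => ?_⟩
    have h3 := congrFun h2 e
    rw [tup_snd, tup_snd, key] at h3
    exact h3
  · rintro ⟨h1, h2⟩
    refine ⟨h1, funext fun e => ?_⟩
    rw [tup_snd, tup_snd, key]
    exact h2 e

/-- input tuples of `a` and `b` in state `z` match under some input isomorphism -/
def Match (z : Ph N V) (a b : N.Node) : Prop :=
  ∃ β : InputIso N a b, ∀ e : N.In a, st z (N.tail e.1) = st z (N.tail (β.toEquiv e).1)

end

end Pool.Agent.H848R3.RI
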