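import Pool.Agent.H848R3.RI.Core

set_option autoImplicit false
set_option linter.unusedSectionVars false
set_option linter.unusedVariables false
open Topology Filter Set MeasureTheory

namespace Pool.Agent.H848R3.RI

noncomputable section

variable {N : Network} {V : N.SType → Type} [∀ τ, NormedAddCommGroup (V τ)]
  [∀ τ, NormedSpace ℝ (V τ)]

open Classical in
/-- the coordinate projection onto the nodes satisfying `Z` -/
def projZ (V : N.SType → Type) [∀ τ, NormedAddCommGroup (V τ)] [∀ τ, NormedSpace ℝ (V τ)]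
    (Z : N.Node → Prop) : Ph N V →L[ℝ] Ph N V :=
  ContinuousLinearMap.pi fun e => if Z e then ContinuousLinearMap.proj e else 0

lemma projZ_pos {Z : N.Node → Prop} {e : N.Node} (h : Z e) (y : Ph N V) :
    projZ V Z y e = y e := by
  simp [projZ, h]

lemma projZ_neg {Z : N.Node → Prop} {e : N.Node} (h : ¬ Z e) (y : Ph N V) :
    projZ V Z y e = 0 := by
  simp [projZ, h]

variable [∀ τ, FiniteDimensional ℝ (V τ)]

/-- At a maximiser the nodes at rest stay at rest for all times. -/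
lemma rest_forever [∀ τ, Nontrivial (V τ)]
    {f f₁ : Ph N V → Ph N V} {x x₁ : ℝ → Ph N V} {T δ T₁ t₀ : ℝ} (hx : Continuous x)
    (hM : IsMx f x T δ f₁ x₁ T₁ t₀) (hf : ContDiff ℝ 1 f) (c : N.Node)
    (hc : f₁ (x₁ t₀) c = 0) (t : ℝ) : x₁ t c = x₁ t₀ c := by
  set z := x₁ t₀ with hz
  set Z : N.Node → Prop := fun e => f₁ z e = 0 with hZ
  set Q := projZ V Z with hQ
  have hsol := hM.cls.orb.sol
  have hT := hM.cls.orb.pos
  have hcont : Continuous x₁ := hM.cls.orb.continuous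
  obtain ⟨B, hB⟩ : ∃ B : ℝ, ∀ t, ‖x₁ t‖ ≤ B := by
    have hp : Function.Periodic x₁ T₁ := hM.cls.orb.per
    obtain ⟨B, hB⟩ := (isCompact_Icc (a := (0:ℝ)) (b := 0 + T₁)).exists_bound_of_continuousOn
      hcont.continuousOn
    refine ⟨B, fun t => ?_⟩
    obtain ⟨s, hs, hs2⟩ := hp.exists_mem_Ico₀ hT t
    rw [hs2]
    exact hB s ⟨hs.1, by linarith [hs.2]⟩
  have hB0 : 0 ≤ B := (norm_nonneg _).trans (hB 0)
  set P : Ph N V → Ph N V := fun y => y - Q (y - z) with hP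
  have hPZ : ∀ y e, Z e → P y e = z e := by
    intro y e he
    change y e - Q (y - z) e = z e
    rw [hQ, projZ_pos he, Pi.sub_apply]
    abel
  obtain ⟨F, hF1, ⟨K, hK⟩, -, hF2⟩ := exists_cut hM.cls.adm.smooth
    (R := B + ‖Q‖ * (B + ‖z‖)) (by positivity)
  have hPb : ∀ t, ‖P (x₁ t)‖ ≤ B + ‖Q‖ * (B + ‖z‖) := by
    intro t
    have h1 := norm_sub_le (x₁ t) (Q (x₁ t - z))
    have h2 := Q.le_opNorm (x₁ t - z)
    have h3 := norm_sub_le (x₁ t) z
    have h4 : ‖Q‖ * ‖x₁ t - z‖ ≤ ‖Q‖ * (B + ‖z‖) :=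
      mul_le_mul_of_nonneg_left (by linarith [hB t]) (norm_nonneg _)
    change ‖x₁ t - Q (x₁ t - z)‖ ≤ _
    linarith [hB t]
  have hb1 : ∀ t, f₁ (x₁ t) = F (x₁ t) := fun t => (hF2 _ (by
    rw [mem_ball_zero_iff]
    have : 0 ≤ ‖Q‖ * (B + ‖z‖) := by positivity
    linarith [hB t])).symm
  have hb2 : ∀ t, f₁ (P (x₁ t)) = F (P (x₁ t)) := fun t => (hF2 _ (by
    rw [mem_ball_zero_iff]
    linarith [hPb t])).symm
  have hfix : ∀ y, Q (f₁ (P y)) = 0 := by
    intro y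
    funext e
    by_cases he : Z e
    · rw [hQ, projZ_pos he]
      have h1 := hM.cls.adm.comp e e (InputIso.refl e) (P y) z
        (by rw [st_of rfl, cst_self, hPZ y e he])
        (fun i => by
          have h3 := hPZ y _ (rest_closed hx hM hf e he i)
          change st (P y) (N.tail i.1) = st z (N.tail i.1)
          rw [st_of rfl, cst_self, h3])
      rw [st_of rfl, cst_self] at h1
      rw [h1]
      exact he
    · rw [hQ, projZ_neg he]; rfl
  set u : ℝ → Ph N V := fun t => Q (x₁ t - z) with hu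
  have hud : ∀ t, HasDerivAt u (Q (f₁ (x₁ t))) t := fun t =>
    Q.hasFDerivAt.comp_hasDerivAt t ((hsol t).sub_const z)
  have hbound : ∀ t, ‖Q (f₁ (x₁ t))‖ ≤ (‖Q‖ * K) * ‖u t‖ := by
    intro t
    have h1 : Q (f₁ (x₁ t)) = Q (f₁ (x₁ t) - f₁ (P (x₁ t))) := by
      rw [map_sub, hfix, sub_zero]
    have h2 : ‖f₁ (x₁ t) - f₁ (P (x₁ t))‖ ≤ K * ‖u t‖ := by
      rw [hb1, hb2, ← dist_eq_norm]
      have := hK.dist_le_mul (x₁ t) (P (x₁ t))
      rw [dist_eq_norm (x₁ t)] at this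
      have h3 : x₁ t - P (x₁ t) = u t := by
        change x₁ t - (x₁ t - Q (x₁ t - z)) = Q (x₁ t - z)
        abel
      rw [h3] at this
      exact this
    rw [h1]
    have h3 := Q.le_opNorm (f₁ (x₁ t) - f₁ (P (x₁ t)))
    have h4 := mul_le_mul_of_nonneg_left h2 (norm_nonneg Q)
    linarith
  have hu0 : u t₀ = 0 := by
    change Q (x₁ t₀ - z) = 0
    rw [hz, sub_self, map_zero]
  have hzero : ∀ t, t₀ ≤ t → u t = 0 := by
    intro t ht
    refine eq_zero_of_abs_deriv_le_mul_abs_self_of_eq_zero_right (f := u)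
      (f' := fun t => Q (f₁ (x₁ t))) (K := ‖Q‖ * K) (a := t₀) (b := t)
      (fun s _ => (hud s).continuousAt.continuousWithinAt)
      (fun s _ => (hud s).hasDerivWithinAt) hu0 (fun s _ => hbound s) t ⟨ht, le_rfl⟩
  obtain ⟨n, hn⟩ : ∃ n : ℕ, t₀ ≤ t + n * T₁ := by
    obtain ⟨n, hn⟩ := exists_nat_ge ((t₀ - t) / T₁)
    refine ⟨n, ?_⟩
    rw [div_le_iff₀ hT] at hn
    linarith
  have hp : Function.Periodic x₁ T₁ := hM.cls.orb.per
  have h1 : x₁ (t + n * T₁) = x₁ t := hp.nat_mul n t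
  have h2 := congrFun (hzero _ hn) c
  change Q (x₁ (t + n * T₁) - z) c = 0 at h2
  rw [h1, hQ, projZ_pos hc, Pi.sub_apply, sub_eq_zero] at h2
  exact h2

end

end Pool.Agent.H848R3.RI
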